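import Mathlib
import Pool.Agent.W994.TR.Stm
import Pool.Agent.W565.ST.Sav
import Pool.Agent.W565.TR.Nbp

/-!
# TR-UP: the deterministic program for trees
-/

set_option autoImplicit false

namespace Pool.Agent.W565.TR.Up

open Finset
open Pool.Agent.W997.TS (DBP)
open Pool.Agent.W994.ST (Input Reach nReach)
open Pool.Agent.W994.TR
open Pool.Agent.W565.ST.Sav
open Pool.Agent.W565.TR.Nbp (BC BC_reach BC_unique)

variable {k : ℕ}

/-! ### Facts on trees -/

theorem BC_ext {s : Fin k} {x : Input k} {a y : Fin k} {l : List (Fin k × Bool)}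
    (hl : BC s x a l) (h : Reach x a y) : ∃ m, BC s x y (m ++ l) := by
  unfold Reach at h
  induction h with
  | refl => exact ⟨[], hl⟩
  | @tail b c _ hbc ih =>
    obtain ⟨m, hm⟩ := ih
    obtain ⟨e, he⟩ := hbc
    by_cases hcb : c = b
    · rw [hcb]
      exact ⟨m, hm⟩
    · refine ⟨(b, e) :: m, he, ?_, BC_reach _ _ hm, hm⟩
      rw [he]
      exact hcb

theorem exists_BC {s : Fin k} {x : Input k} {y : Fin k} (h : Reach x s y) : ∃ l, BC s x y l := by
  obtain ⟨m, hm⟩ := BC_ext (l := []) (rfl : BC s x s []) h
  exact ⟨_, hm⟩

theorem nReach_pos (x : Input k) (u : Fin k) : 1 ≤ nReach x u := by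
  unfold nReach
  have h1 : ({u} : Set (Fin k)) ⊆ {v | Reach x u v} := by
    intro v hv
    rw [Set.mem_singleton_iff] at hv
    rw [hv]
    exact Relation.ReflTransGen.refl
  have := Set.ncard_le_ncard h1 (Set.toFinite _)
  rwa [Set.ncard_singleton] at this

theorem nReach_lt {s : Fin k} {x : Input k} (hT : TreeFrom x s) {u : Fin k} (hu : Reach x s u)
    {c : Bool} (hc : x (u, c) ≠ u) : nReach x (x (u, c)) < nReach x u := by
  unfold nReach
  apply Set.ncard_lt_ncard _ (Set.toFinite _)
  obtain ⟨l, hl⟩ := exists_BC hu
  have ha : BC s x (x (u, c)) ((u, c) :: l) := ⟨rfl, hc, BC_reach _ _ hl, hl⟩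
  refine ⟨?_, ?_⟩
  · intro y hy
    exact Relation.ReflTransGen.head ⟨c, rfl⟩ hy
  · intro hsub
    have h1 : Reach x (x (u, c)) u := hsub (Relation.ReflTransGen.refl : Reach x u u)
    obtain ⟨m, hm⟩ := BC_ext ha h1
    have h2 := congrArg List.length (BC_unique hT _ _ _ hl hm)
    simp only [List.length_append, List.length_cons] at h2
    omega

theorem nReach_add {s : Fin k} {x : Input k} (hT : TreeFrom x s) {u : Fin k} (hu : Reach x s u)
    (h0 : x (u, false) ≠ u) (h1 : x (u, true) ≠ u) :
    nReach x (x (u, false)) + nReach x (x (u, true)) ≤ nReach x u := by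
  obtain ⟨l, hl⟩ := exists_BC hu
  have a0 : BC s x (x (u, false)) ((u, false) :: l) := ⟨rfl, h0, BC_reach _ _ hl, hl⟩
  have a1 : BC s x (x (u, true)) ((u, true) :: l) := ⟨rfl, h1, BC_reach _ _ hl, hl⟩
  have hd : Disjoint {v | Reach x (x (u, false)) v} {v | Reach x (x (u, true)) v} := by
    rw [Set.disjoint_left]
    intro y hy0 hy1
    obtain ⟨m0, hm0⟩ := BC_ext a0 hy0
    obtain ⟨m1, hm1⟩ := BC_ext a1 hy1
    have he := BC_unique hT _ _ _ hm0 hm1
    have hlen := congrArg List.length he
    simp only [List.length_append, List.length_cons] at hlen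
    have h2 := (List.append_inj he (by omega)).2
    rw [List.cons.injEq, Prod.mk.injEq] at h2
    exact Bool.false_ne_true h2.1.2
  unfold nReach
  rw [← Set.ncard_union_eq hd (Set.toFinite _) (Set.toFinite _)]
  apply Set.ncard_le_ncard _ (Set.toFinite _)
  rintro y (hy | hy)
  · exact Relation.ReflTransGen.head ⟨false, rfl⟩ hy
  · exact Relation.ReflTransGen.head ⟨true, rfl⟩ hy

theorem reach_child {x : Input k} {u t : Fin k} (h : Reach x u t) (hut : u ≠ t) :
    ∃ c, x (u, c) ≠ u ∧ Reach x (x (u, c)) t := by
  unfold Reach at h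
  induction h using Relation.ReflTransGen.head_induction_on with
  | refl => exact absurd rfl hut
  | @head a b hab hbt ih =>
    obtain ⟨c, hc⟩ := hab
    by_cases hba : b = a
    · subst hba
      exact ih hut
    · refine ⟨c, ?_, ?_⟩
      · rw [hc]
        exact hba
      · rw [hc]
        exact hbt

/-! ### The program -/

/-- read a pointer and run the program of its target -/
def child (f : Fin k → Prog k (Option Bool)) (u : Fin k) (c : Bool) :
    Prog k (Fin k × Option Bool) where
  State := Unit ⊕ (Σ a, (f a).State)
  start := Sum.inl ()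
  query σ := match σ with
    | Sum.inl _ => (u, c)
    | Sum.inr τ => (f τ.1).query τ.2
  next σ y := match σ with
    | Sum.inl _ => if y = u then Sum.inr (y, some false) else Sum.inl (Sum.inr ⟨y, (f y).start⟩)
    | Sum.inr τ => match (f τ.1).next τ.2 y with
      | Sum.inl τ' => Sum.inl (Sum.inr ⟨τ.1, τ'⟩)
      | Sum.inr o => Sum.inr (τ.1, o)

theorem child_inner (f : Fin k → Prog k (Option Bool)) (u : Fin k) (c : Bool) (x : Input k)
    (Q : Set (Fin k × Bool)) {a : Fin k} {τ : (f a).State} {o : Option Bool}
    (h : Ends (f a) x Q τ o) :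
    Ends (child f u c) x Q (Sum.inr ⟨a, τ⟩ : Unit ⊕ (Σ a, (f a).State)) (a, o) := by
  induction h with
  | fin h1 h2 =>
    refine Ends.fin (P := child f u c) h1 ?_
    simp only [child, h2]
  | @step τ τ' o h1 h2 _ ih =>
    refine Ends.step (P := child f u c)
      (σ' := (Sum.inr ⟨a, τ'⟩ : Unit ⊕ (Σ a, (f a).State))) h1 ?_ ih
    simp only [child, h2]

/-- the result of the child `c` of `u` -/
def rr (x : Input k) (ρ : Fin k → Option Bool) (u : Fin k) (c : Bool) : Option Bool :=
  if x (u, c) = u then some false else ρ (x (u, c))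

theorem child_ends (f : Fin k → Prog k (Option Bool)) (u : Fin k) (c : Bool) (x : Input k)
    (Q : Set (Fin k × Bool)) (ρ : Fin k → Option Bool) (hQ : (u, c) ∈ Q)
    (h : x (u, c) ≠ u → Ends (f (x (u, c))) x Q (f (x (u, c))).start (ρ (x (u, c)))) :
    Ends (child f u c) x Q (child f u c).start (x (u, c), rr x ρ u c) := by
  by_cases hc : x (u, c) = u
  · refine Ends.fin (P := child f u c) hQ ?_
    change (if x (u, c) = u then Sum.inr (x (u, c), some false) else
      Sum.inl (Sum.inr (⟨x (u, c), (f (x (u, c))).start⟩ : Σ a, (f a).State))) = _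
    rw [if_pos hc]
    unfold rr
    rw [if_pos hc]
    rfl
  · refine Ends.step (P := child f u c)
      (σ' := (Sum.inr ⟨x (u, c), (f (x (u, c))).start⟩ : Unit ⊕ (Σ a, (f a).State))) hQ ?_ ?_
    · change (if x (u, c) = u then Sum.inr (x (u, c), some false) else
        Sum.inl (Sum.inr (⟨x (u, c), (f (x (u, c))).start⟩ : Σ a, (f a).State))) = _
      rw [if_neg hc]
      rfl
    · unfold rr
      rw [if_neg hc]
      exact child_inner f u c x Q (h hc)

/-- the loop states -/
abbrev LS (k R : ℕ) : Type :=
  (Fin (2 ^ R) × Fin (R + 1) × Fin k) × Option (Fin k × Option Bool)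

/-- the decision -/
def dec (R : ℕ) (v t : Fin k) (α : Fin (2 ^ R) × Fin (R + 1) × Fin k) (a0 : Fin k)
    (r0 : Option Bool) (a1 : Fin k) (r1 : Option Bool) : LS k R ⊕ Option Bool :=
  if α.2.2 = t ∨ r0 = some true ∨ r1 = some true then Sum.inr (some true)
  else if r0 = none then
    if r1 = none then
      if h : α.2.1.val < R then
        Sum.inl ((α.1, ⟨α.2.1.val + 1, by omega⟩,
          if Nat.testBit α.1.val α.2.1.val then a1 else a0), none)
      else Sum.inr none
    else Sum.inl ((α.1, α.2.1, a0), none)
  else if r1 = none then Sum.inl ((α.1, α.2.1, a1), none)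
  else if h : α.1.val + 1 < 2 ^ R then Sum.inl ((⟨α.1.val + 1, h⟩, 0, v), none)
  else Sum.inr (some false)

/-- the control -/
def kap (R : ℕ) (v t : Fin k) (a : LS k R) (o : Fin k × Option Bool) : LS k R ⊕ Option Bool :=
  match a.2 with
  | none => Sum.inl (a.1, some o)
  | some p => dec R v t a.1 p.1 p.2 o.1 o.2

/-- one loop state -/
def body (R : ℕ) (f : Fin k → Prog k (Option Bool)) (a : LS k R) : Prog k (Fin k × Option Bool) :=
  child f a.1.2.2 a.2.isSome

/-- the program of level `j` -/
def E (R : ℕ) (t : Fin k) : ℕ → Fin k → Prog k (Option Bool)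
  | 0, v =>
    { State := Unit
      start := ()
      query := fun _ => (v, false)
      next := fun _ _ => Sum.inr none }
  | j + 1, v => loop (body R (E R t j)) (kap R v t)
      ((⟨0, by positivity⟩, 0, v), none)

/-! ### The walk -/

/-- the walk for the bits of `b` -/
def wk (x : Input k) (ρ : Fin k → Option Bool) (t : Fin k) (R b : ℕ) :
    ℕ → ℕ → Fin k → Option (Option Bool)
  | 0, _, _ => none
  | n + 1, i, u =>
    if u = t ∨ rr x ρ u false = some true ∨ rr x ρ u true = some true then some (some true)
    else if rr x ρ u false = none then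
      if rr x ρ u true = none then
        if i < R then wk x ρ t R b n (i + 1) (x (u, Nat.testBit b i)) else some none
      else wk x ρ t R b n i (x (u, false))
    else if rr x ρ u true = none then wk x ρ t R b n i (x (u, true))
    else none

/-- the specification -/
def Spec (x : Input k) (t : Fin k) (B : ℕ) (v : Fin k) (o : Option Bool) : Prop :=
  (o = some true → Reach x v t) ∧ (o = some false → ¬ Reach x v t) ∧ (o = none → B ≤ nReach x v)

section walk

variable {x : Input k} {s t : Fin k} {ρ : Fin k → Option Bool} {B R : ℕ}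

theorem rr_none {u : Fin k} {c : Bool} (h : rr x ρ u c = none) :
    x (u, c) ≠ u ∧ ρ (x (u, c)) = none := by
  unfold rr at h
  split_ifs at h with h1
  exact ⟨h1, h⟩

theorem rr_true {u : Fin k} {c : Bool} (h : rr x ρ u c = some true) :
    x (u, c) ≠ u ∧ ρ (x (u, c)) = some true := by
  unfold rr at h
  split_ifs at h with h1
  · simp at h
  · exact ⟨h1, h⟩

theorem walk_true (hρ : ∀ a, Reach x s a → Spec x t B a (ρ a)) (b n : ℕ) : ∀ (i : ℕ) (u : Fin k),
    Reach x s u → wk x ρ t R b n i u = some (some true) → Reach x u t := by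
  induction n with
  | zero =>
    intro i u _ h
    simp [wk] at h
  | succ n ih =>
    intro i u hu h
    have hc : ∀ c, Reach x s (x (u, c)) := fun c => hu.tail ⟨c, rfl⟩
    have hh : ∀ c, Reach x (x (u, c)) t → Reach x u t := fun c h =>
      Relation.ReflTransGen.head ⟨c, rfl⟩ h
    unfold wk at h
    split_ifs at h with h1 h2 h3 h4 h5
    · rcases h1 with h1 | h1 | h1
      · rw [h1]
        exact Relation.ReflTransGen.refl
      · exact hh false ((hρ _ (hc false)).1 (rr_true h1).2)
      · exact hh true ((hρ _ (hc true)).1 (rr_true h1).2)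
    · exact hh _ (ih _ _ (hc _) h)
    · simp at h
    · exact hh _ (ih _ _ (hc _) h)
    · exact hh _ (ih _ _ (hc _) h)

theorem walk_big (hT : TreeFrom x s) (hρ : ∀ a, Reach x s a → Spec x t B a (ρ a)) (b n : ℕ) :
    ∀ (i : ℕ) (u : Fin k), Reach x s u → i ≤ R → wk x ρ t R b n i u = some none →
      (R + 1 - i) * B ≤ nReach x u := by
  induction n with
  | zero =>
    intro i u _ _ h
    simp [wk] at h
  | succ n ih =>
    intro i u hu hi h
    have hc : ∀ c, Reach x s (x (u, c)) := fun c => hu.tail ⟨c, rfl⟩
    unfold wk at h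
    split_ifs at h with h1 h2 h3 h4 h5
    · simp at h
    · -- branching
      have e0 := rr_none h2
      have e1 := rr_none h3
      have b0 := (hρ _ (hc false)).2.2 e0.2
      have b1 := (hρ _ (hc true)).2.2 e1.2
      have hadd := nReach_add hT hu e0.1 e1.1
      have hI := ih _ _ (hc _) (by omega) h
      have h6 : (R + 1 - i) * B = (R + 1 - (i + 1)) * B + B := by
        have : R + 1 - i = (R + 1 - (i + 1)) + 1 := by omega
        rw [this, Nat.add_mul, one_mul]
      rw [h6]
      cases hb : Nat.testBit b i with
      | false =>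
        rw [hb] at hI
        omega
      | true =>
        rw [hb] at hI
        omega
    · have e0 := rr_none h2
      have b0 := (hρ _ (hc false)).2.2 e0.2
      have hlt := nReach_lt hT hu e0.1
      have h6 : R + 1 - i = 1 := by omega
      rw [h6, one_mul]
      omega
    · have e0 := rr_none h2
      have hlt := nReach_lt hT hu e0.1
      have hI := ih _ _ (hc _) hi h
      omega
    · have e0 := rr_none h5
      have hlt := nReach_lt hT hu e0.1
      have hI := ih _ _ (hc _) hi h
      omega

theorem walk_none (hT : TreeFrom x s) (hρ : ∀ a, Reach x s a → Spec x t B a (ρ a)) (n : ℕ) :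
    ∀ (i : ℕ) (u : Fin k), Reach x s u → nReach x u ≤ n → Reach x u t →
      ∃ f : ℕ → Bool, ∀ b, (∀ i', i ≤ i' → i' < R → Nat.testBit b i' = f i') →
        wk x ρ t R b n i u ≠ none := by
  induction n with
  | zero =>
    intro i u _ h
    have := nReach_pos x u
    omega
  | succ n ih =>
    intro i u hu hn hr
    have hc : ∀ c, Reach x s (x (u, c)) := fun c => hu.tail ⟨c, rfl⟩
    by_cases h1 : u = t ∨ rr x ρ u false = some true ∨ rr x ρ u true = some true
    · refine ⟨fun _ => false, fun b _ => ?_⟩
      unfold wk
      rw [if_pos h1]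
      simp
    · have hut : u ≠ t := fun h => h1 (Or.inl h)
      obtain ⟨c, hcu, hct⟩ := reach_child hr hut
      have hlt := nReach_lt hT hu hcu
      -- the child on the path is big
      have hbig : rr x ρ u c = none := by
        rcases hrr : rr x ρ u c with _ | bb
        · rfl
        · exfalso
          cases bb with
          | true =>
            apply h1
            cases c with
            | false => exact Or.inr (Or.inl hrr)
            | true => exact Or.inr (Or.inr hrr)
          | false =>
            unfold rr at hrr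
            rw [if_neg hcu] at hrr
            exact (hρ _ (hc c)).2.1 hrr hct
      by_cases h2 : rr x ρ u false = none
      · by_cases h3 : rr x ρ u true = none
        · by_cases h4 : i < R
          · obtain ⟨f, hf⟩ := ih (i + 1) (x (u, c)) (hc c) (by omega) hct
            refine ⟨fun i' => if i' = i then c else f i', fun b hb => ?_⟩
            unfold wk
            rw [if_neg h1, if_pos h2, if_pos h3, if_pos h4]
            have h5 : Nat.testBit b i = c := by
              rw [hb i le_rfl h4]
              simp
            rw [h5]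
            apply hf
            intro i' hi' hi'R
            rw [hb i' (by omega) hi'R]
            simp only
            rw [if_neg (by omega)]
          · refine ⟨fun _ => false, fun b _ => ?_⟩
            unfold wk
            rw [if_neg h1, if_pos h2, if_pos h3, if_neg h4]
            simp
        · cases c with
          | true => exact absurd hbig h3
          | false =>
            obtain ⟨f, hf⟩ := ih i (x (u, false)) (hc false) (by omega) hct
            refine ⟨f, fun b hb => ?_⟩
            unfold wk
            rw [if_neg h1, if_pos h2, if_neg h3]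
            exact hf b hb
      · cases c with
        | false => exact absurd hbig h2
        | true =>
          obtain ⟨f, hf⟩ := ih i (x (u, true)) (hc true) (by omega) hct
          refine ⟨f, fun b hb => ?_⟩
          unfold wk
          rw [if_neg h1, if_neg h2, if_pos hbig]
          exact hf b hb

end walk

/-! ### The loop -/

section loop

variable {x : Input k} {s t v : Fin k} {ρ : Fin k → Option Bool} {B R : ℕ}
  {f : Fin k → Prog k (Option Bool)}

/-- the loop -/
def LP (R : ℕ) (t v : Fin k) (f : Fin k → Prog k (Option Bool)) : Prog k (Option Bool) :=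
  loop (body R f) (kap R v t) ((⟨0, by positivity⟩, 0, v), none)

/-- the state at the start of a loop state -/
def stt (R : ℕ) (t v : Fin k) (f : Fin k → Prog k (Option Bool)) (a : LS k R) : (LP R t v f).State :=
  (⟨a, (body R f a).start⟩ : Σ a, (body R f a).State)

theorem two_steps (hf : ∀ a, Reach x s a → Ends (f a) x {p | Reach x s p.1} (f a).start (ρ a))
    (α : Fin (2 ^ R) × Fin (R + 1) × Fin k) (hu : Reach x s α.2.2) :
    (∀ a' o, dec R v t α (x (α.2.2, false)) (rr x ρ α.2.2 false) (x (α.2.2, true))
        (rr x ρ α.2.2 true) = Sum.inl a' →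
      Ends (LP R t v f) x {p | Reach x s p.1} (stt R t v f a') o →
      Ends (LP R t v f) x {p | Reach x s p.1} (stt R t v f (α, none)) o) ∧
    (∀ o, dec R v t α (x (α.2.2, false)) (rr x ρ α.2.2 false) (x (α.2.2, true))
        (rr x ρ α.2.2 true) = Sum.inr o →
      Ends (LP R t v f) x {p | Reach x s p.1} (stt R t v f (α, none)) o) := by
  have hc : ∀ c, Reach x s (x (α.2.2, c)) := fun c => hu.tail ⟨c, rfl⟩
  have e0 : Ends (body R f (α, none)) x {p | Reach x s p.1} (body R f (α, none)).start
      (x (α.2.2, false), rr x ρ α.2.2 false) :=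
    child_ends f α.2.2 false x _ ρ hu (fun _ => hf _ (hc false))
  have e1 : Ends (body R f (α, some (x (α.2.2, false), rr x ρ α.2.2 false))) x
      {p | Reach x s p.1} (body R f (α, some (x (α.2.2, false), rr x ρ α.2.2 false))).start
      (x (α.2.2, true), rr x ρ α.2.2 true) :=
    child_ends f α.2.2 true x _ ρ hu (fun _ => hf _ (hc true))
  constructor
  · intro a' o h1 h2
    exact loop_step (body R f) (kap R v t) _ x _
      (a' := (α, some (x (α.2.2, false), rr x ρ α.2.2 false))) e0 rfl
      (loop_step (body R f) (kap R v t) _ x _ (a' := a') e1 h1 h2)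
  · intro o h1
    exact loop_step (body R f) (kap R v t) _ x _
      (a' := (α, some (x (α.2.2, false), rr x ρ α.2.2 false))) e0 rfl
      (loop_fin (body R f) (kap R v t) _ x _ e1 h1)

/-- what happens after the walk of `b` -/
def NX (x : Input k) (s t v : Fin k) (R : ℕ) (f : Fin k → Prog k (Option Bool)) (b : Fin (2 ^ R))
    (o : Option Bool) : Prop :=
  if h : b.val + 1 < 2 ^ R then
    Ends (LP R t v f) x {p | Reach x s p.1} (stt R t v f ((⟨b.val + 1, h⟩, 0, v), none)) o
  else o = some false

theorem ends_walk (hT : TreeFrom x s)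
    (hf : ∀ a, Reach x s a → Ends (f a) x {p | Reach x s p.1} (f a).start (ρ a))
    (b : Fin (2 ^ R)) (n : ℕ) : ∀ (i : Fin (R + 1)) (u : Fin k), Reach x s u → nReach x u ≤ n →
    (∀ o, wk x ρ t R b.val n i.val u = some o →
      Ends (LP R t v f) x {p | Reach x s p.1} (stt R t v f ((b, i, u), none)) o) ∧
    (∀ o, wk x ρ t R b.val n i.val u = none → NX x s t v R f b o →
      Ends (LP R t v f) x {p | Reach x s p.1} (stt R t v f ((b, i, u), none)) o) := by
  induction n with
  | zero =>
    intro i u _ h
    have := nReach_pos x u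
    omega
  | succ n ih =>
    intro i u hu hn
    have hc : ∀ c, Reach x s (x (u, c)) := fun c => hu.tail ⟨c, rfl⟩
    obtain ⟨s1, s2⟩ := two_steps (v := v) (t := t) hf (b, i, u) hu
    simp only at s1 s2
    by_cases h1 : u = t ∨ rr x ρ u false = some true ∨ rr x ρ u true = some true
    · have hd : dec R v t (b, i, u) (x (u, false)) (rr x ρ u false) (x (u, true))
          (rr x ρ u true) = Sum.inr (some true) := by
        unfold dec
        rw [if_pos h1]
      have hw : wk x ρ t R b.val (n + 1) i.val u = some (some true) := by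
        unfold wk
        rw [if_pos h1]
      rw [hw]
      refine ⟨fun o ho => ?_, fun o ho => ?_⟩
      · rw [Option.some.injEq] at ho
        rw [← ho]
        exact s2 _ hd
      · simp at ho
    · by_cases h2 : rr x ρ u false = none
      · have e0 := rr_none h2
        have hlt0 := nReach_lt hT hu e0.1
        by_cases h3 : rr x ρ u true = none
        · have e1 := rr_none h3
          have hlt1 := nReach_lt hT hu e1.1
          by_cases h4 : i.val < R
          · have hd : dec R v t (b, i, u) (x (u, false)) (rr x ρ u false) (x (u, true))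
                (rr x ρ u true) = Sum.inl ((b, ⟨i.val + 1, by omega⟩,
                  x (u, Nat.testBit b.val i.val)), none) := by
              unfold dec
              rw [if_neg h1, if_pos h2, if_pos h3, dif_pos h4]
              cases hb : Nat.testBit b.val i.val with
              | false => simp
              | true => simp
            have hw : wk x ρ t R b.val (n + 1) i.val u =
                wk x ρ t R b.val n (i.val + 1) (x (u, Nat.testBit b.val i.val)) := by
              conv_lhs => unfold wk
              rw [if_neg h1, if_pos h2, if_pos h3, if_pos h4]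
            rw [hw]
            obtain ⟨i1, i2⟩ := ih ⟨i.val + 1, by omega⟩ (x (u, Nat.testBit b.val i.val)) (hc _) (by
              cases Nat.testBit b.val i.val with
              | false => omega
              | true => omega)
            exact ⟨fun o ho => s1 _ _ hd (i1 o ho), fun o ho hN => s1 _ _ hd (i2 o ho hN)⟩
          · have hd : dec R v t (b, i, u) (x (u, false)) (rr x ρ u false) (x (u, true))
                (rr x ρ u true) = Sum.inr none := by
              unfold dec
              rw [if_neg h1, if_pos h2, if_pos h3, dif_neg h4]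
            have hw : wk x ρ t R b.val (n + 1) i.val u = some none := by
              unfold wk
              rw [if_neg h1, if_pos h2, if_pos h3, if_neg h4]
            rw [hw]
            refine ⟨fun o ho => ?_, fun o ho => ?_⟩
            · rw [Option.some.injEq] at ho
              rw [← ho]
              exact s2 _ hd
            · simp at ho
        · have hd : dec R v t (b, i, u) (x (u, false)) (rr x ρ u false) (x (u, true))
              (rr x ρ u true) = Sum.inl ((b, i, x (u, false)), none) := by
            unfold dec
            rw [if_neg h1, if_pos h2, if_neg h3]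
          have hw : wk x ρ t R b.val (n + 1) i.val u = wk x ρ t R b.val n i.val (x (u, false)) := by
            conv_lhs => unfold wk
            rw [if_neg h1, if_pos h2, if_neg h3]
          rw [hw]
          obtain ⟨i1, i2⟩ := ih i (x (u, false)) (hc _) (by omega)
          exact ⟨fun o ho => s1 _ _ hd (i1 o ho), fun o ho hN => s1 _ _ hd (i2 o ho hN)⟩
      · by_cases h3 : rr x ρ u true = none
        · have e1 := rr_none h3
          have hlt1 := nReach_lt hT hu e1.1
          have hd : dec R v t (b, i, u) (x (u, false)) (rr x ρ u false) (x (u, true))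
              (rr x ρ u true) = Sum.inl ((b, i, x (u, true)), none) := by
            unfold dec
            rw [if_neg h1, if_neg h2, if_pos h3]
          have hw : wk x ρ t R b.val (n + 1) i.val u = wk x ρ t R b.val n i.val (x (u, true)) := by
            conv_lhs => unfold wk
            rw [if_neg h1, if_neg h2, if_pos h3]
          rw [hw]
          obtain ⟨i1, i2⟩ := ih i (x (u, true)) (hc _) (by omega)
          exact ⟨fun o ho => s1 _ _ hd (i1 o ho), fun o ho hN => s1 _ _ hd (i2 o ho hN)⟩
        · have hw : wk x ρ t R b.val (n + 1) i.val u = none := by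
            unfold wk
            rw [if_neg h1, if_neg h2, if_neg h3]
          rw [hw]
          refine ⟨fun o ho => by simp at ho, fun o _ hN => ?_⟩
          unfold NX at hN
          by_cases h5 : b.val + 1 < 2 ^ R
          · rw [dif_pos h5] at hN
            have hd : dec R v t (b, i, u) (x (u, false)) (rr x ρ u false) (x (u, true))
                (rr x ρ u true) = Sum.inl ((⟨b.val + 1, h5⟩, 0, v), none) := by
              unfold dec
              rw [if_neg h1, if_neg h2, if_neg h3, dif_pos h5]
            exact s1 _ _ hd hN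
          · rw [dif_neg h5] at hN
            have hd : dec R v t (b, i, u) (x (u, false)) (rr x ρ u false) (x (u, true))
                (rr x ρ u true) = Sum.inr (some false) := by
              unfold dec
              rw [if_neg h1, if_neg h2, if_neg h3, dif_neg h5]
            rw [hN]
            exact s2 _ hd

theorem ends_loop (hT : TreeFrom x s) (hv : Reach x s v)
    (hf : ∀ a, Reach x s a → Ends (f a) x {p | Reach x s p.1} (f a).start (ρ a))
    (hρ : ∀ a, Reach x s a → Spec x t B a (ρ a)) :
    ∃ o, Ends (LP R t v f) x {p | Reach x s p.1}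
      (stt R t v f ((⟨0, by positivity⟩, 0, v), none)) o ∧ Spec x t ((R + 1) * B) v o := by
  have key : ∀ (m : ℕ) (b : Fin (2 ^ R)), 2 ^ R - b.val ≤ m →
      ∃ o, Ends (LP R t v f) x {p | Reach x s p.1} (stt R t v f ((b, 0, v), none)) o ∧
        (o = some true → Reach x v t) ∧ (o = none → (R + 1) * B ≤ nReach x v) ∧
        (o = some false → ∀ b' : Fin (2 ^ R), b ≤ b' →
          wk x ρ t R b'.val (nReach x v) 0 v = none) := by
    intro m
    induction m with
    | zero =>
      intro b hb
      have := b.isLt
      omega
    | succ m ihm =>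
      intro b hb
      obtain ⟨w1, w2⟩ := ends_walk (v := v) (t := t) hT hf b (nReach x v) 0 v hv le_rfl
      change (∀ o, wk x ρ t R b.val (nReach x v) 0 v = some o → _) at w1
      change (∀ o, wk x ρ t R b.val (nReach x v) 0 v = none → _) at w2
      rcases hw : wk x ρ t R b.val (nReach x v) 0 v with _ | o
      · by_cases hb1 : b.val + 1 < 2 ^ R
        · obtain ⟨o, h1, h2, h3, h4⟩ := ihm ⟨b.val + 1, hb1⟩ (by
            change 2 ^ R - (b.val + 1) ≤ m
            omega)
          refine ⟨o, w2 o hw ?_, h2, h3, fun ho b' hb' => ?_⟩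
          · unfold NX
            rw [dif_pos hb1]
            exact h1
          · rcases hb'.lt_or_eq with h5 | h5
            · apply h4 ho
              change b.val + 1 ≤ b'.val
              have h6 : b.val < b'.val := h5
              omega
            · rw [← h5]
              exact hw
        · refine ⟨some false, w2 _ hw ?_, by simp, by simp, fun _ b' hb' => ?_⟩
          · unfold NX
            rw [dif_neg hb1]
          · have h5 : b = b' := by
              apply Fin.ext
              have h6 : b.val ≤ b'.val := hb'
              have h7 := b'.isLt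
              omega
            rw [← h5]
            exact hw
      · refine ⟨o, w1 o hw, ?_, ?_, ?_⟩
        · intro ho
          rw [ho] at hw
          exact walk_true hρ b.val _ 0 v hv hw
        · intro ho
          rw [ho] at hw
          exact walk_big hT hρ b.val _ 0 v hv (Nat.zero_le _) hw
        · intro ho
          exfalso
          rw [ho] at hw
          -- a walk never outputs `some false`
          have : ∀ (n i : ℕ) (u : Fin k), wk x ρ t R b.val n i u ≠ some (some false) := by
            intro n
            induction n with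
            | zero => intro i u h; simp [wk] at h
            | succ n ih =>
              intro i u h
              unfold wk at h
              split_ifs at h
              · simp at h
              · exact ih _ _ h
              · simp at h
              · exact ih _ _ h
              · exact ih _ _ h
          exact this _ _ _ hw
  obtain ⟨o, h1, h2, h3, h4⟩ := key (2 ^ R) ⟨0, by positivity⟩ (by simp)
  refine ⟨o, h1, h2, fun ho hr => ?_, h3⟩
  obtain ⟨g, hg⟩ := walk_none (R := R) hT hρ (nReach x v) 0 v hv le_rfl hr
  have hbits : ∃ b : Fin (2 ^ R), ∀ i, i < R → Nat.testBit b.val i = g i := by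
    refine ⟨⟨Nat.ofBits (fun i : Fin R => g i.val), Nat.ofBits_lt_two_pow _⟩, fun i hi => ?_⟩
    exact Nat.testBit_ofBits_lt (fun i : Fin R => g i.val) i hi
  obtain ⟨b, hb⟩ := hbits
  exact hg b.val (fun i' _ hi' => hb i' hi') (h4 ho b (Nat.zero_le _))

end loop

theorem ends_E {x : Input k} {s t : Fin k} {R : ℕ} (hT : TreeFrom x s) (j : ℕ) :
    ∀ v : Fin k, Reach x s v → ∃ o, Ends (E R t j v) x {p | Reach x s p.1} (E R t j v).start o ∧
      Spec x t ((R + 1) ^ j) v o := by
  classical
  induction j with
  | zero =>
    intro v hv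
    refine ⟨none, Ends.fin (P := E R t 0 v) hv rfl, by simp, by simp, fun _ => ?_⟩
    simpa using nReach_pos x v
  | succ j ih =>
    intro v hv
    set ρ : Fin k → Option Bool := fun a => if h : Reach x s a then (ih a h).choose else none
      with hρdef
    have hρ : ∀ a, Reach x s a →
        Ends (E R t j a) x {p | Reach x s p.1} (E R t j a).start (ρ a) ∧
        Spec x t ((R + 1) ^ j) a (ρ a) := by
      intro a ha
      simp only [hρdef]
      rw [dif_pos ha]
      exact (ih a ha).choose_spec
    obtain ⟨o, h1, h2⟩ := ends_loop (R := R) (f := E R t j) hT hv (fun a ha => (hρ a ha).1)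
      (fun a ha => (hρ a ha).2)
    refine ⟨o, h1, ?_⟩
    rw [pow_succ, mul_comm]
    exact h2

/-- the size -/
theorem card_E (hk : 1 ≤ k) (R : ℕ) (t : Fin k) (j : ℕ) (v : Fin k) :
    Fintype.card (E R t j v).State ≤ (8 * 2 ^ R * (R + 1) * k ^ 3) ^ j := by
  induction j generalizing v with
  | zero => exact le_rfl
  | succ j ih =>
    change Fintype.card (Σ a, (body R (E R t j) a).State) ≤ _
    rw [Fintype.card_sigma]
    set M := (8 * 2 ^ R * (R + 1) * k ^ 3) ^ j with hM
    have hM1 : 1 ≤ M := Nat.one_le_pow _ _ (by positivity)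
    have h1 : ∀ a : LS k R, Fintype.card (body R (E R t j) a).State ≤ 2 * k * M := by
      intro a
      change Fintype.card (Unit ⊕ (Σ a, (E R t j a).State)) ≤ _
      rw [Fintype.card_sum, Fintype.card_sigma, Fintype.card_unit]
      have h2 : ∑ a, Fintype.card (E R t j a).State ≤ k * M := by
        calc ∑ a, Fintype.card (E R t j a).State ≤ ∑ _a : Fin k, M :=
              Finset.sum_le_sum (fun a _ => ih a)
          _ = k * M := by simp
      nlinarith
    refine (Finset.sum_le_sum (fun a _ => h1 a)).trans ?_
    rw [Finset.sum_const, Finset.card_univ, Fintype.card_prod, Fintype.card_prod,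
      Fintype.card_prod, Fintype.card_option, Fintype.card_prod, Fintype.card_option,
      Fintype.card_fin, Fintype.card_fin, Fintype.card_fin, Fintype.card_bool, smul_eq_mul,
      pow_succ, ← hM]
    have h3 : k * (2 + 1) + 1 ≤ 4 * k := by omega
    calc 2 ^ R * ((R + 1) * k) * (k * (2 + 1) + 1) * (2 * k * M)
        ≤ 2 ^ R * ((R + 1) * k) * (4 * k) * (2 * k * M) :=
          Nat.mul_le_mul_right _ (Nat.mul_le_mul_left _ h3)
      _ = M * (8 * 2 ^ R * (R + 1) * k ^ 3) := by ring

/-- the branching program -/
def toDBP {O : Type} (P : Prog k O) (g : O → Bool) : DBP (Fin k × Bool) k where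
  State := P.State
  start := P.start
  query := P.query
  next σ c := match P.next σ c with
    | Sum.inl σ' => Sum.inl σ'
    | Sum.inr o => Sum.inr (g o)

theorem path_of_ends {O : Type} (P : Prog k O) (g : O → Bool) (x : Input k)
    (Q : Set (Fin k × Bool)) (σ : P.State) (o : O) (h : Ends P x Q σ o) :
    ∃ l : List P.State, (toDBP P g).IsPath x σ l (g o) ∧ ∀ q ∈ σ :: l, P.query q ∈ Q := by
  induction h with
  | @fin σ o h1 h2 =>
    refine ⟨[], ?_, ?_⟩
    · change (match P.next σ (x (P.query σ)) with
        | Sum.inl σ' => Sum.inl σ'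
        | Sum.inr o => Sum.inr (g o)) = _
      simp only [h2]
      rfl
    · intro q hq
      rw [List.mem_singleton] at hq
      rw [hq]
      exact h1
  | @step σ σ' o h1 h2 _ ih =>
    obtain ⟨l, hl, hR⟩ := ih
    refine ⟨σ' :: l, ⟨?_, hl⟩, ?_⟩
    · change (match P.next σ (x (P.query σ)) with
        | Sum.inl σ' => Sum.inl σ'
        | Sum.inr o => Sum.inr (g o)) = _
      simp only [h2]
      rfl
    · intro q hq
      rw [List.mem_cons] at hq
      rcases hq with hq | hq
      · rw [hq]
        exact h1
      · exact hR q hq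

/-- the number of levels -/
theorem levels {k : ℕ} (hk : 4 ≤ k) : ∃ J : ℕ, k < (Nat.log 2 k + 1 + 1) ^ J ∧
    (J : ℝ) * (13 * Real.logb 2 k) ≤ 26 * Real.logb 2 k ^ 2 / Real.logb 2 (Real.logb 2 k) := by
  have hk0 : (0 : ℝ) < k := by
    have : 0 < k := by omega
    exact_mod_cast this
  obtain ⟨l, hl⟩ : ∃ l : ℝ, l = Real.logb 2 k := ⟨_, rfl⟩
  have hl2 : 2 ≤ l := by
    rw [hl]
    refine (Real.le_logb_iff_rpow_le (by norm_num) hk0).2 ?_
    have : (4 : ℝ) ≤ k := by exact_mod_cast hk
    norm_num
    linarith
  have hl0 : 0 < l := by linarith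
  have hkl : (k : ℝ) = 2 ^ l := by
    rw [hl]
    exact (Real.rpow_logb (by norm_num) (by norm_num) hk0).symm
  obtain ⟨b, hb⟩ : ∃ b : ℝ, b = Real.logb 2 l := ⟨_, rfl⟩
  have hbl : l = 2 ^ b := by
    rw [hb]
    exact (Real.rpow_logb (by norm_num) (by norm_num) hl0).symm
  have hb1 : 1 ≤ b := by
    rw [hb]
    refine (Real.le_logb_iff_rpow_le (by norm_num) hl0).2 ?_
    rw [Real.rpow_one]
    linarith
  have hb0 : 0 < b := by linarith
  have hbl2 : b ≤ l := by
    rw [hb]
    refine (Real.logb_le_iff_le_rpow (by norm_num) hl0).2 ?_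
    have := one_add_mul_self_le_rpow_one_add (s := 1) (by norm_num) (by linarith : 1 ≤ l)
    rw [one_add_one_eq_two] at this
    linarith
  rw [← hl, ← hb]
  refine ⟨⌊l / b⌋₊ + 1, ?_, ?_⟩
  · have h1 : l / b < ((⌊l / b⌋₊ + 1 : ℕ) : ℝ) := by
      push_cast
      exact Nat.lt_floor_add_one _
    have h2 : l ≤ ((Nat.log 2 k + 1 + 1 : ℕ) : ℝ) := by
      have h3 : (k : ℝ) ≤ 2 ^ ((Nat.log 2 k + 1 + 1 : ℕ) : ℝ) := by
        rw [Real.rpow_natCast]
        have := (Nat.lt_pow_succ_log_self (b := 2) (by norm_num) k).le
        have h4 : k ≤ 2 ^ (Nat.log 2 k + 1 + 1) :=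
          this.trans (Nat.pow_le_pow_right (by norm_num) (by omega))
        exact_mod_cast h4
      rw [hl]
      exact (Real.logb_le_iff_le_rpow (by norm_num) hk0).2 h3
    have h5 : (k : ℝ) < (((Nat.log 2 k + 1 + 1) ^ (⌊l / b⌋₊ + 1) : ℕ) : ℝ) := by
      calc (k : ℝ) = 2 ^ l := hkl
        _ = l ^ (l / b) := by
            have e1 : l ^ (l / b) = ((2 : ℝ) ^ b) ^ (l / b) := by rw [← hbl]
            rw [e1, ← Real.rpow_mul (by norm_num), mul_div_cancel₀ _ hb0.ne']
        _ < l ^ ((⌊l / b⌋₊ + 1 : ℕ) : ℝ) := Real.rpow_lt_rpow_of_exponent_lt (by linarith) h1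
        _ = l ^ (⌊l / b⌋₊ + 1) := Real.rpow_natCast _ _
        _ ≤ ((Nat.log 2 k + 1 + 1 : ℕ) : ℝ) ^ (⌊l / b⌋₊ + 1) := pow_le_pow_left₀ hl0.le h2 _
        _ = _ := by push_cast; rfl
    exact_mod_cast h5
  · have h1 : ((⌊l / b⌋₊ + 1 : ℕ) : ℝ) ≤ 2 * (l / b) := by
      push_cast
      have h2 : (⌊l / b⌋₊ : ℝ) ≤ l / b := Nat.floor_le (by positivity)
      have h3 : 1 ≤ l / b := by
        rw [le_div_iff₀ hb0]
        linarith
      linarith
    calc ((⌊l / b⌋₊ + 1 : ℕ) : ℝ) * (13 * l) ≤ 2 * (l / b) * (13 * l) :=
          mul_le_mul_of_nonneg_right h1 (by positivity)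
      _ = 26 * l ^ 2 / b := by ring

theorem main : UpProp := by
  classical
  refine ⟨26, by norm_num, 4, fun k hk s t => ?_⟩
  obtain ⟨J, hJ, hJ2⟩ := levels hk
  set R := Nat.log 2 k + 1 with hR
  refine ⟨toDBP (E R t J s) (fun o => decide (o = some true)), ?_, ?_⟩
  · refine le_trans ?_ hJ2
    have h1 : (toDBP (E R t J s) (fun o => decide (o = some true))).size ≤
        (8 * 2 ^ R * (R + 1) * k ^ 3) ^ J := card_E (by omega) R t J s
    have hRk : 2 ^ R ≤ 2 * k := by
      rw [hR, pow_succ, mul_comm]
      exact Nat.mul_le_mul_left 2 (Nat.pow_log_le_self 2 (by omega))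
    have hRk2 : R + 1 ≤ 2 * k := by
      have : R < 2 ^ R := Nat.lt_two_pow_self
      omega
    have h2 : 8 * 2 ^ R * (R + 1) * k ^ 3 ≤ k ^ 8 := by
      calc 8 * 2 ^ R * (R + 1) * k ^ 3 ≤ 8 * (2 * k) * (2 * k) * k ^ 3 := by
            apply Nat.mul_le_mul_right
            exact Nat.mul_le_mul (Nat.mul_le_mul_left _ hRk) hRk2
        _ = 32 * k ^ 5 := by ring
        _ ≤ k ^ 3 * k ^ 5 := by
            apply Nat.mul_le_mul_right
            calc 32 ≤ 4 ^ 3 := by norm_num
              _ ≤ k ^ 3 := Nat.pow_le_pow_left hk 3
        _ = k ^ 8 := by ring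
    have h3 : (toDBP (E R t J s) (fun o => decide (o = some true))).size ≤ k ^ (8 * J) := by
      rw [pow_mul]
      exact h1.trans (Nat.pow_le_pow_left h2 J)
    have hpos : 0 < (toDBP (E R t J s) (fun o => decide (o = some true))).size :=
      Fintype.card_pos_iff.2 ⟨(E R t J s).start⟩
    have hk1 : (1 : ℝ) ≤ k := by
      have : 1 ≤ k := by omega
      exact_mod_cast this
    have hlog0 : 0 ≤ Real.logb 2 k := Real.logb_nonneg (by norm_num) hk1
    calc Real.logb 2 ((toDBP (E R t J s) (fun o => decide (o = some true))).size : ℝ)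
        ≤ Real.logb 2 ((k ^ (8 * J) : ℕ) : ℝ) :=
          Real.logb_le_logb_of_le (by norm_num) (by exact_mod_cast hpos) (by exact_mod_cast h3)
      _ = (8 * J : ℕ) * Real.logb 2 k := by
          rw [Nat.cast_pow, Real.logb_pow]
      _ ≤ (J : ℝ) * (13 * Real.logb 2 k) := by
          push_cast
          have : (0 : ℝ) ≤ J * Real.logb 2 k := by positivity
          nlinarith
  · intro x hT
    obtain ⟨o, ho, hS⟩ := ends_E (R := R) (t := t) hT J s Relation.ReflTransGen.refl
    obtain ⟨l, hl, hQ⟩ := path_of_ends (E R t J s) (fun o => decide (o = some true)) x _ _ _ ho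
    have hn : nReach x s ≤ k := by
      unfold nReach
      have := Set.ncard_le_ncard (Set.subset_univ {v | Reach x s v}) (Set.toFinite _)
      rw [Set.ncard_univ, Nat.card_eq_fintype_card, Fintype.card_fin] at this
      exact this
    have hres : decide (o = some true) = decide (Reach x s t) := by
      apply decide_eq_decide.2
      constructor
      · exact hS.1
      · intro hr
        rcases o with _ | bb
        · have := hS.2.2 rfl
          exact absurd (this.trans hn) (not_le.2 hJ)
        · cases bb with
          | true => rfl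
          | false => exact absurd hr (hS.2.1 rfl)
    refine ⟨_, _, ?_, l, ?_, rfl, rfl⟩
    · have hsub : (((toDBP (E R t J s) (fun o => decide (o = some true))).start :: l).map
          (toDBP (E R t J s) (fun o => decide (o = some true))).query).toFinset ⊆
          (univ.filter (fun v => Reach x s v)) ×ˢ (univ : Finset Bool) := by
        intro p hp
        rw [List.mem_toFinset, List.mem_map] at hp
        obtain ⟨q, hq, rfl⟩ := hp
        rw [mem_product, mem_filter]
        exact ⟨⟨mem_univ _, hQ q hq⟩, mem_univ _⟩
      refine (Finset.card_le_card hsub).trans ?_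
      rw [Finset.card_product, Finset.card_univ, Fintype.card_bool, mul_comm]
      apply Nat.mul_le_mul_left
      unfold nReach
      rw [← Set.ncard_coe_finset]
      apply le_of_eq
      congr 1
      ext v
      simp
    · rw [← hres]
      exact hl

end Pool.Agent.W565.TR.Up
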