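import Mathlib
import Pool.Agent.W994.TR.Stm
import Pool.Agent.W565.ST.Inst

/-!
# TR-INST: properties of the hard trees
-/

set_option autoImplicit false

namespace Pool.Agent.W565.TR.Inst

open Finset
open Pool.Agent.W994.ST (Input Reach nReach Nd Hb nd nn sd entry sb pn)
open Pool.Agent.W994.TR
open Pool.Agent.W565.ST.Inst (card_Nd)

section eval

variable {k κ r D : ℕ} {nm : Nd r D × Fin κ → Fin k} {s t : Fin k}

theorem wld_st {v : Fin k × Bool} (z : Bool) (h : Hb r D) (a : Nd r D → Fin κ) (hv : v.1 = s)
    (hv2 : v.2 = true) : wld nm s t z h a v = s := by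
  unfold wld
  rw [if_pos hv, if_pos hv2]

theorem wld_sf {v : Fin k × Bool} (z : Bool) (h : Hb r D) (a : Nd r D → Fin κ) (hv : v.1 = s)
    (hv2 : v.2 = false) : wld nm s t z h a v = nm (entry r D, a (entry r D)) := by
  unfold wld
  rw [if_pos hv, if_neg (by rw [hv2]; decide)]

theorem wld_nm (hinj : Function.Injective nm) (hs : ∀ v, nm v ≠ s) {v : Fin k × Bool} (z : Bool)
    (h : Hb r D) (a : Nd r D → Fin κ) {u : Nd r D} (hv : v.1 = nm (u, a u)) :
    wld nm s t z h a v =
      tg (fun u => nm (u, a u)) (if z then some t else none) v.1 (sc r D h u v.2) := by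
  unfold wld
  have h1 : v.1 ≠ s := by
    rw [hv]
    exact hs _
  have h2 : ∃ u, nm (u, a u) = v.1 := ⟨u, hv.symm⟩
  rw [if_neg h1, dif_pos h2]
  have h3 : h2.choose = u := by
    have := h2.choose_spec
    exact (Prod.ext_iff.1 (hinj (this.trans hv))).1
  rw [h3]

theorem wld_else {v : Fin k × Bool} (z : Bool) (h : Hb r D) (a : Nd r D → Fin κ) (hv : v.1 ≠ s)
    (hv2 : ∀ u, v.1 ≠ nm (u, a u)) : wld nm s t z h a v = v.1 := by
  unfold wld
  rw [if_neg hv, dif_neg]
  rintro ⟨u, hu⟩
  exact hv2 u hu.symm

end eval

/-- the exit of a gadget can be reached from its entry -/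
theorem reach_gadget {k r : ℕ} (x : Input k) : ∀ (d : ℕ) (h : Hb r d) (ι : Nd r d → Fin k)
    (ε : Fin k), (∀ u c, x (ι u, c) = tg ι (some ε) (ι u) (sc r d h u c)) →
    Reach x (ι (entry r d)) ε := by
  intro d
  induction d with
  | zero =>
    intro h ι ε hx
    exact Relation.ReflTransGen.single ⟨false, hx _ _⟩
  | succ d ih =>
    rintro ⟨ω, g⟩ ι ε hx
    have key : ∀ i : Fin (r + 1), Reach x (ι (pn d i (sd ω i)))
        (if h : i.val + 1 < r + 1 then ι (pn d ⟨i.val + 1, h⟩ (sd ω ⟨i.val + 1, h⟩)) else ε) := by
      intro i
      have h1 : x (ι (pn d i (sd ω i)), ω i) = ι (sb i (sd ω i) (ω i) (entry r d)) := hx _ _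
      have h2 := ih (g (i, sd ω i, ω i)) (fun u => ι (sb i (sd ω i) (ω i) u))
        (if h : i.val + 1 < r + 1 then ι (pn d ⟨i.val + 1, h⟩ (sd ω ⟨i.val + 1, h⟩)) else ε) (by
          intro u c
          rw [hx]
          have e1 : sc r (d + 1) (ω, g) (sb i (sd ω i) (ω i) u) c =
              (match sc r d (g (i, sd ω i, ω i)) u c with
              | Sum.inl u' => Sum.inl ((i, sd ω i), some (ω i, u'))
              | Sum.inr false => Sum.inr false
              | Sum.inr true =>
                match nx ω i (sd ω i) (ω i) with
                | Sum.inl p => Sum.inl (p, none)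
                | Sum.inr b => Sum.inr b) := rfl
          rw [e1]
          rcases hsc : sc r d (g (i, sd ω i, ω i)) u c with u' | b
          · rfl
          · cases b with
            | false => rfl
            | true =>
              by_cases hi : i.val + 1 < r + 1
              · have e2 : nx ω i (sd ω i) (ω i) = Sum.inl (⟨i.val + 1, hi⟩, ω i) := by
                  unfold nx
                  rw [if_pos rfl, dif_pos hi]
                have e3 : sd ω ⟨i.val + 1, hi⟩ = ω i := by
                  unfold sd
                  simp
                simp only [e2]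
                rw [dif_pos hi, e3]
                rfl
              · have e2 : nx ω i (sd ω i) (ω i) = Sum.inr true := by
                  unfold nx
                  rw [if_pos rfl, dif_neg hi]
                  simp
                simp only [e2]
                rw [dif_neg hi]
                rfl)
      exact Relation.ReflTransGen.head ⟨ω i, h1⟩ h2
    have hall : ∀ n (hn : n < r + 1), Reach x (ι (entry r (d + 1)))
        (ι (pn d ⟨n, hn⟩ (sd ω ⟨n, hn⟩))) := by
      intro n
      induction n with
      | zero =>
        intro hn
        exact Relation.ReflTransGen.refl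
      | succ n ihn =>
        intro hn
        have h1 := ihn (by omega)
        have h2 := key ⟨n, by omega⟩
        rw [dif_pos hn] at h2
        exact h1.trans h2
    have h1 := hall r (by omega)
    have h2 := key ⟨r, by omega⟩
    rw [dif_neg (by simp)] at h2
    exact h1.trans h2

theorem sc_node {r d : ℕ} (h : Hb r (d + 1)) (i : Fin (r + 1)) (e b : Bool) (u : Nd r d)
    (c : Bool) : sc r (d + 1) h ((i, e), some (b, u)) c =
      (match sc r d (h.2 (i, e, b)) u c with
      | Sum.inl u' => Sum.inl ((i, e), some (b, u'))
      | Sum.inr false => Sum.inr false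
      | Sum.inr true =>
        match nx h.1 i e b with
        | Sum.inl p => Sum.inl (p, none)
        | Sum.inr b => Sum.inr b) := rfl

theorem sc_path {r d : ℕ} (h : Hb r (d + 1)) (p : Fin (r + 1) × Bool) (c : Bool) :
    sc r (d + 1) h (p, none) c = Sum.inl (p, some (c, entry r d)) := rfl

theorem entry_succ (r d : ℕ) : entry r (d + 1) = ((0, false), none) := rfl

theorem inl_inj1 {r d : ℕ} {p p' : Fin (r + 1) × Bool} {o o' : Option (Bool × Nd r d)}
    (h : (Sum.inl ((p, o) : Nd r (d + 1)) : Nd r (d + 1) ⊕ Bool) =
      Sum.inl ((p', o') : Nd r (d + 1))) : p = p' ∧ o = o' := by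
  have h1 : (Sum.inl (p, o) : ((Fin (r + 1) × Bool) × Option (Bool × Nd r d)) ⊕ Bool) =
      Sum.inl (p', o') := h
  rw [Sum.inl.injEq, Prod.mk.injEq] at h1
  exact h1

/-- (A) the entry is not a target -/
theorem sc_entry {r : ℕ} : ∀ (d : ℕ) (h : Hb r d) (u : Nd r d) (c : Bool),
    sc r d h u c ≠ Sum.inl (entry r d) := by
  intro d
  cases d with
  | zero =>
    intro h u c hc
    exact Sum.inr_ne_inl hc
  | succ d =>
    rintro h ⟨⟨i, e⟩, (_ | ⟨b, u⟩)⟩ c hc
    · rw [sc_path, entry_succ] at hc
      exact Option.some_ne_none _ (inl_inj1 hc).2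
    · rw [sc_node, entry_succ] at hc
      rcases hsc : sc r d (h.2 (i, e, b)) u c with u' | bb
      · simp only [hsc] at hc
        exact Option.some_ne_none _ (inl_inj1 hc).2
      · cases bb with
        | false =>
          simp only [hsc] at hc
          exact Sum.inr_ne_inl hc
        | true =>
          simp only [hsc] at hc
          unfold nx at hc
          by_cases he : e = sd h.1 i
          · rw [if_pos he] at hc
            by_cases hi : i.val + 1 < r + 1
            · rw [dif_pos hi] at hc
              simp only at hc
              have h1 := (Prod.mk.injEq _ _ _ _ ▸ (inl_inj1 hc).1 : _ ∧ _).1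
              have := congrArg Fin.val h1
              simp at this
            · rw [dif_neg hi] at hc
              exact Sum.inr_ne_inl hc
          · rw [if_neg he] at hc
            exact Sum.inr_ne_inl hc

theorem nx_inj {r : ℕ} {ω : Fin (r + 1) → Bool} {i i' : Fin (r + 1)} {e e' b b' : Bool}
    (h : nx ω i e b = nx ω i' e' b') (hn : nx ω i e b ≠ Sum.inr false) :
    i = i' ∧ e = e' ∧ b = b' := by
  have hn' : nx ω i' e' b' ≠ Sum.inr false := by rwa [← h]
  by_cases he : e = sd ω i
  · by_cases he' : e' = sd ω i'
    · unfold nx at h hn hn'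
      rw [if_pos he] at h hn
      rw [if_pos he'] at h hn'
      by_cases hi : i.val + 1 < r + 1
      · rw [dif_pos hi] at h hn
        by_cases hi' : i'.val + 1 < r + 1
        · rw [dif_pos hi'] at h
          rw [Sum.inl.injEq, Prod.mk.injEq] at h
          have h1 : i = i' := by
            have := congrArg Fin.val h.1
            exact Fin.ext (by simpa using this)
          refine ⟨h1, ?_, h.2⟩
          rw [he, he', h1]
        · rw [dif_neg hi'] at h
          exact absurd h Sum.inl_ne_inr
      · rw [dif_neg hi] at h hn
        by_cases hi' : i'.val + 1 < r + 1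
        · rw [dif_pos hi'] at h
          exact absurd h Sum.inr_ne_inl
        · rw [dif_neg hi'] at h hn'
          have h1 : i = i' := Fin.ext (by omega)
          have h2 : b = ω i := by
            by_contra hb
            apply hn
            rw [Sum.inr.injEq]
            exact beq_eq_false_iff_ne.2 hb
          have h3 : b' = ω i' := by
            by_contra hb
            apply hn'
            rw [Sum.inr.injEq]
            exact beq_eq_false_iff_ne.2 hb
          refine ⟨h1, ?_, ?_⟩
          · rw [he, he', h1]
          · rw [h2, h3, h1]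
    · exfalso
      apply hn'
      unfold nx
      rw [if_neg he']
  · exfalso
    apply hn
    unfold nx
    rw [if_neg he]

/-- the value at a node of a sub-gadget -/
theorem sc_cases {r d : ℕ} (h : Hb r (d + 1)) (i : Fin (r + 1)) (e b : Bool) (u : Nd r d)
    (c : Bool) (hn : sc r (d + 1) h ((i, e), some (b, u)) c ≠ Sum.inr false) :
    (∃ u', sc r d (h.2 (i, e, b)) u c = Sum.inl u' ∧
      sc r (d + 1) h ((i, e), some (b, u)) c = Sum.inl ((i, e), some (b, u'))) ∨
    (sc r d (h.2 (i, e, b)) u c = Sum.inr true ∧ nx h.1 i e b ≠ Sum.inr false ∧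
      ((∃ p, nx h.1 i e b = Sum.inl p ∧
        sc r (d + 1) h ((i, e), some (b, u)) c = Sum.inl (p, none)) ∨
      (nx h.1 i e b = Sum.inr true ∧ sc r (d + 1) h ((i, e), some (b, u)) c = Sum.inr true))) := by
  rw [sc_node] at hn ⊢
  rcases hsc : sc r d (h.2 (i, e, b)) u c with u' | bb
  · left
    exact ⟨u', rfl, rfl⟩
  · cases bb with
    | false =>
      exfalso
      simp only [hsc] at hn
      exact hn rfl
    | true =>
      right
      simp only [hsc] at hn
      rcases hnx : nx h.1 i e b with p | b'
      · refine ⟨rfl, Sum.inl_ne_inr, Or.inl ⟨p, rfl, rfl⟩⟩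
      · cases b' with
        | false =>
          simp only [hnx] at hn
          exact absurd rfl hn
        | true => exact ⟨rfl, by simp, Or.inr ⟨rfl, rfl⟩⟩

/-- (B) injectivity -/
theorem sc_inj {r : ℕ} : ∀ (d : ℕ) (h : Hb r d) (u u' : Nd r d) (c c' : Bool),
    sc r d h u c = sc r d h u' c' → sc r d h u c ≠ Sum.inr false → u = u' ∧ c = c' := by
  intro d
  induction d with
  | zero =>
    intro h u u' c c' he _
    refine ⟨rfl, ?_⟩
    have h1 : (Sum.inr (!c) : Unit ⊕ Bool) = Sum.inr (!c') := he
    rw [Sum.inr.injEq] at h1
    cases c <;> cases c' <;> simp_all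
  | succ d ih =>
    rintro h ⟨⟨i, e⟩, (_ | ⟨b, u⟩)⟩ ⟨⟨i', e'⟩, (_ | ⟨b', u'⟩)⟩ c c' heq hn
    · rw [sc_path, sc_path] at heq
      obtain ⟨h1, h2⟩ := inl_inj1 heq
      rw [Option.some.injEq, Prod.mk.injEq] at h2
      exact ⟨by rw [h1], h2.1⟩
    · exfalso
      have hn' : sc r (d + 1) h ((i', e'), some (b', u')) c' ≠ Sum.inr false := by rwa [← heq]
      rcases sc_cases h i' e' b' u' c' hn' with ⟨w, h1, h2⟩ | ⟨-, -, ⟨p, -, h2⟩ | ⟨-, h2⟩⟩
      · rw [sc_path, h2] at heq
        have h3 := (inl_inj1 heq).2
        rw [Option.some.injEq, Prod.mk.injEq] at h3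
        rw [← h3.2] at h1
        exact sc_entry d _ _ _ h1
      · rw [sc_path, h2] at heq
        exact Option.some_ne_none _ (inl_inj1 heq).2
      · rw [sc_path, h2] at heq
        exact Sum.inl_ne_inr heq
    · exfalso
      rcases sc_cases h i e b u c hn with ⟨w, h1, h2⟩ | ⟨-, -, ⟨p, -, h2⟩ | ⟨-, h2⟩⟩
      · rw [sc_path, h2] at heq
        have h3 := (inl_inj1 heq).2
        rw [Option.some.injEq, Prod.mk.injEq] at h3
        rw [h3.2] at h1
        exact sc_entry d _ _ _ h1
      · rw [sc_path, h2] at heq
        exact Option.some_ne_none _ (inl_inj1 heq).2.symm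
      · rw [sc_path, h2] at heq
        exact Sum.inr_ne_inl heq
    · have hn' : sc r (d + 1) h ((i', e'), some (b', u')) c' ≠ Sum.inr false := by rwa [← heq]
      rcases sc_cases h i e b u c hn with ⟨w, h1, h2⟩ | ⟨h1, h1n, hh⟩
      · rcases sc_cases h i' e' b' u' c' hn' with ⟨w', h1', h2'⟩ | ⟨-, -, ⟨p, -, h2'⟩ | ⟨-, h2'⟩⟩
        · rw [h2, h2'] at heq
          obtain ⟨h5, h6⟩ := inl_inj1 heq
          rw [Prod.mk.injEq] at h5
          rw [Option.some.injEq, Prod.mk.injEq] at h6
          obtain ⟨rfl, rfl⟩ := h5
          obtain ⟨rfl, rfl⟩ := h6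
          obtain ⟨h3, h4⟩ := ih (h.2 (i, e, b)) u u' c c' (by rw [h1, h1']) (by rw [h1]; simp)
          exact ⟨by rw [h3], h4⟩
        · rw [h2, h2'] at heq
          exact absurd (inl_inj1 heq).2 (Option.some_ne_none _)
        · rw [h2, h2'] at heq
          exact absurd heq Sum.inl_ne_inr
      · rcases sc_cases h i' e' b' u' c' hn' with ⟨w', h1', h2'⟩ | ⟨h1', h1n', hh'⟩
        · rcases hh with ⟨p, -, h2⟩ | ⟨-, h2⟩
          · rw [h2, h2'] at heq
            exact absurd (inl_inj1 heq).2.symm (Option.some_ne_none _)
          · rw [h2, h2'] at heq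
            exact absurd heq Sum.inr_ne_inl
        · have hnx : nx h.1 i e b = nx h.1 i' e' b' := by
            rcases hh with ⟨p, h3, h2⟩ | ⟨h3, h2⟩
            · rcases hh' with ⟨p', h3', h2'⟩ | ⟨h3', h2'⟩
              · rw [h2, h2'] at heq
                rw [h3, h3', (inl_inj1 heq).1]
              · rw [h2, h2'] at heq
                exact absurd heq Sum.inl_ne_inr
            · rcases hh' with ⟨p', h3', h2'⟩ | ⟨h3', h2'⟩
              · rw [h2, h2'] at heq
                exact absurd heq Sum.inr_ne_inl
              · rw [h3, h3']
          obtain ⟨rfl, rfl, rfl⟩ := nx_inj hnx h1n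
          obtain ⟨h3, h4⟩ := ih (h.2 (i, e, b)) u u' c c' (by rw [h1, h1']) (by rw [h1]; simp)
          exact ⟨by rw [h3], h4⟩

theorem main : InstProp := by
  intro k κ r D nm s t hinj hs ht hst
  refine ⟨?_, ?_, ?_, ?_, ?_, ?_, ?_⟩
  · intro z h a
    have hsub : {v | Reach (wld nm s t z h a) s v} ⊆
        ({s, t} : Set (Fin k)) ∪ Set.range (fun u => nm (u, a u)) := by
      intro v hv
      change Reach (wld nm s t z h a) s v at hv
      unfold Reach at hv
      induction hv with
      | refl => left; simp
      | @tail b c _ hbc ihb =>
        obtain ⟨e, he⟩ := hbc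
        by_cases hb : b = s
        · cases e with
          | true =>
            rw [wld_st z h a (v := (b, true)) hb rfl] at he
            left
            rw [← he]
            simp
          | false =>
            rw [wld_sf z h a (v := (b, false)) hb rfl] at he
            right
            exact ⟨_, he⟩
        · by_cases hb2 : ∃ u, b = nm (u, a u)
          · obtain ⟨u, hu⟩ := hb2
            rw [wld_nm hinj hs z h a (v := (b, e)) hu] at he
            rcases hsc : sc r D h u e with u' | bb
            · right
              refine ⟨u', ?_⟩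
              rw [← he]
              simp only [hsc]
              rfl
            · rw [← he]
              simp only [hsc]
              cases bb with
              | false => exact ihb
              | true =>
                cases z with
                | false => exact ihb
                | true =>
                  left
                  change t ∈ _
                  simp
          · push Not at hb2
            rw [wld_else z h a (v := (b, e)) hb hb2] at he
            rw [← he]
            exact ihb
    unfold nReach
    refine (Set.ncard_le_ncard hsub (Set.toFinite _)).trans ((Set.ncard_union_le _ _).trans ?_)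
    have h1 : ({s, t} : Set (Fin k)).ncard ≤ 2 := by
      have := Finset.card_le_two (a := s) (b := t)
      rw [← Set.ncard_coe_finset] at this
      simpa using this
    have h2 : (Set.range (fun u => nm (u, a u))).ncard ≤ nd r D := by
      rw [← Set.image_univ]
      refine (Set.ncard_image_le (Set.toFinite _)).trans ?_
      rw [Set.ncard_univ, Nat.card_eq_fintype_card, card_Nd]
    omega
  · intro h a
    have h1 := reach_gadget (wld nm s t true h a) D h (fun u => nm (u, a u)) t
      (fun u c => wld_nm hinj hs true h a (v := (nm (u, a u), c)) rfl)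
    exact Relation.ReflTransGen.head ⟨false, wld_sf true h a rfl rfl⟩ h1
  · intro h a hr
    have hval : ∀ v : Fin k × Bool, v.1 ≠ t → wld nm s t false h a v ≠ t := by
      intro v hvt
      by_cases hv : v.1 = s
      · rcases hv2 : v.2 with _ | _
        · rw [wld_sf false h a hv hv2]
          exact ht _
        · rw [wld_st false h a hv hv2]
          exact hst
      · by_cases hv2 : ∃ u, v.1 = nm (u, a u)
        · obtain ⟨u, hu⟩ := hv2
          rw [wld_nm hinj hs false h a hu]
          rcases sc r D h u v.2 with u' | bb
          · exact ht _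
          · cases bb with
            | false => exact hvt
            | true => exact hvt
        · push Not at hv2
          rw [wld_else false h a hv hv2]
          exact hvt
    have hall : ∀ v, Reach (wld nm s t false h a) s v → v ≠ t := by
      intro v hv
      unfold Reach at hv
      induction hv with
      | refl => exact hst
      | @tail b c _ hbc ihb =>
        obtain ⟨e, he⟩ := hbc
        rw [← he]
        exact hval (b, e) ihb
    exact hall t hr rfl
  · intro h a v hv
    by_cases hv1 : v.1 = s
    · rcases hv2 : v.2 with _ | _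
      · rw [wld_sf true h a hv1 hv2, wld_sf false h a hv1 hv2]
      · rw [wld_st true h a hv1 hv2, wld_st false h a hv1 hv2]
    · by_cases hv2 : ∃ u, v.1 = nm (u, a u)
      · obtain ⟨u, hu⟩ := hv2
        rw [wld_nm hinj hs true h a hu, wld_nm hinj hs false h a hu]
        have := hv u v.2 (Prod.ext hu rfl)
        rcases hsc : sc r D h u v.2 with u' | bb
        · rfl
        · cases bb with
          | false => rfl
          | true => exact absurd hsc this
      · push Not at hv2
        rw [wld_else true h a hv1 hv2, wld_else false h a hv1 hv2]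
  · intro z a
    refine ⟨?_, ?_, ?_, ?_, ?_⟩
    · intro u u' h
      exact (Prod.ext_iff.1 (hinj h)).1
    · intro h u c
      exact wld_nm hinj hs z h a (v := (nm (u, a u), c)) rfl
    · intro h h' v hv
      by_cases hv1 : v.1 = s
      · rcases hv2 : v.2 with _ | _
        · rw [wld_sf z h a hv1 hv2, wld_sf z h' a hv1 hv2]
        · rw [wld_st z h a hv1 hv2, wld_st z h' a hv1 hv2]
      · rw [wld_else z h a hv1 hv, wld_else z h' a hv1 hv]
    · intro h v u hv hu
      by_cases hv1 : v.1 = s
      · rcases hv2 : v.2 with _ | _
        · rw [wld_sf z h a hv1 hv2] at hu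
          exact (Prod.ext_iff.1 (hinj hu)).1.symm
        · rw [wld_st z h a hv1 hv2] at hu
          exact absurd hu.symm (hs _)
      · rw [wld_else z h a hv1 hv] at hu
        exact absurd hu (hv u)
    · intro u
      cases z with
      | false => simp
      | true =>
        intro hcon
        have : t = nm (u, a u) := by simpa using hcon
        exact ht _ this.symm
  · intro z h a a' v h1 h2
    by_cases hv1 : v.1 = s
    · rcases hv2 : v.2 with _ | _
      · rw [wld_sf z h a hv1 hv2] at h2 ⊢
        rw [wld_sf z h a' hv1 hv2]
        by_cases he : a (entry r D) = a' (entry r D)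
        · rw [he]
        · exact absurd rfl (h2 _ he)
      · rw [wld_st z h a hv1 hv2, wld_st z h a' hv1 hv2]
    · by_cases hv2 : ∃ u, v.1 = nm (u, a u)
      · obtain ⟨u, hu⟩ := hv2
        have hau : a u = a' u := by
          by_contra hne
          exact (h1 u hne).1 hu
        have hu' : v.1 = nm (u, a' u) := by rw [hu, hau]
        rw [wld_nm hinj hs z h a hu] at h2 ⊢
        rw [wld_nm hinj hs z h a' hu']
        rcases hsc : sc r D h u v.2 with u' | bb
        · rw [hsc] at h2
          change nm (u', a u') = nm (u', a' u')
          by_cases he : a u' = a' u'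
          · rw [he]
          · exact absurd rfl (h2 u' he)
        · cases bb with
          | false => rfl
          | true => rfl
      · push Not at hv2
        rw [wld_else z h a hv1 hv2, wld_else z h a' hv1]
        intro u hu
        have hne : a u ≠ a' u := by
          intro he
          apply hv2 u
          rw [hu, he]
        exact (h1 u hne).2 hu
  · intro z h a
    have hcase : ∀ v : Fin k × Bool, wld nm s t z h a v ≠ v.1 →
        (v = (s, false) ∧ wld nm s t z h a v = nm (entry r D, a (entry r D))) ∨
        (∃ u c u', v = (nm (u, a u), c) ∧ sc r D h u c = Sum.inl u' ∧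
          wld nm s t z h a v = nm (u', a u')) ∨
        (∃ u c, v = (nm (u, a u), c) ∧ sc r D h u c = Sum.inr true ∧
          wld nm s t z h a v = t) := by
      intro v hv
      by_cases hv1 : v.1 = s
      · rcases hv2 : v.2 with _ | _
        · left
          exact ⟨Prod.ext hv1 hv2, wld_sf z h a hv1 hv2⟩
        · exfalso
          apply hv
          rw [wld_st z h a hv1 hv2, hv1]
      · by_cases hv2 : ∃ u, v.1 = nm (u, a u)
        · obtain ⟨u, hu⟩ := hv2
          right
          have hw := wld_nm (t := t) hinj hs z h a hu
          rcases hsc : sc r D h u v.2 with u' | bb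
          · left
            refine ⟨u, v.2, u', Prod.ext hu rfl, hsc, ?_⟩
            rw [hw, hsc]
            rfl
          · cases bb with
            | false =>
              exfalso
              apply hv
              rw [hw, hsc]
              rfl
            | true =>
              cases z with
              | false =>
                exfalso
                apply hv
                rw [hw, hsc]
                rfl
              | true =>
                right
                refine ⟨u, v.2, Prod.ext hu rfl, hsc, ?_⟩
                rw [hw, hsc]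
                rfl
        · exfalso
          push Not at hv2
          exact hv (wld_else z h a hv1 hv2)
    refine ⟨?_, ?_⟩
    · intro v v' _ _ heq hv hv'
      rcases hcase v hv with ⟨e1, e2⟩ | ⟨u, c, u', e1, e2, e3⟩ | ⟨u, c, e1, e2, e3⟩
      · rcases hcase v' hv' with ⟨f1, f2⟩ | ⟨w, d, w', f1, f2, f3⟩ | ⟨w, d, f1, f2, f3⟩
        · rw [e1, f1]
        · exfalso
          rw [e2, f3] at heq
          have := (Prod.ext_iff.1 (hinj heq)).1
          simp only at this
          rw [← this] at f2
          exact sc_entry D h w d f2
        · exfalso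
          rw [e2, f3] at heq
          exact ht _ heq
      · rcases hcase v' hv' with ⟨f1, f2⟩ | ⟨w, d, w', f1, f2, f3⟩ | ⟨w, d, f1, f2, f3⟩
        · exfalso
          rw [e3, f2] at heq
          have := (Prod.ext_iff.1 (hinj heq)).1
          simp only at this
          rw [this] at e2
          exact sc_entry D h u c e2
        · rw [e3, f3] at heq
          have := (Prod.ext_iff.1 (hinj heq)).1
          simp only at this
          rw [← this] at f2
          obtain ⟨g1, g2⟩ := sc_inj D h u w c d (e2.trans f2.symm) (by rw [e2]; simp)
          rw [e1, f1, g1, g2]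
        · exfalso
          rw [e3, f3] at heq
          exact ht _ heq
      · rcases hcase v' hv' with ⟨f1, f2⟩ | ⟨w, d, w', f1, f2, f3⟩ | ⟨w, d, f1, f2, f3⟩
        · exfalso
          rw [e3, f2] at heq
          exact ht _ heq.symm
        · exfalso
          rw [e3, f3] at heq
          exact ht _ heq.symm
        · obtain ⟨g1, g2⟩ := sc_inj D h u w c d (e2.trans f2.symm) (by rw [e2]; simp)
          rw [e1, f1, g1, g2]
    · intro v _ hv
      by_contra hne
      rcases hcase v (fun he => hne (he ▸ hv)) with ⟨e1, e2⟩ | ⟨u, c, u', e1, e2, e3⟩ |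
        ⟨u, c, e1, e2, e3⟩
      · rw [e1] at hne
        exact hne rfl
      · rw [e3] at hv
        exact hs _ hv
      · rw [e3] at hv
        exact hst hv.symm

end Pool.Agent.W565.TR.Inst
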